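import Pool.Agent.L7h81.Pm.Stm2

/-!
# Part LIFT of project PM
-/

set_option autoImplicit false
set_option linter.all false

namespace Pool.Agent.L7h61.Pm

open Real Pool.Agent.L7h81.Pz Pool.Agent.L7h81.Pm CircleDeg1Lift

theorem s_LIFT : S_LIFT := by
  intro n hn hS B htr hlt
  set a := (B : Matrix (Fin 2) (Fin 2) ℝ) 0 0 with ha
  set b := (B : Matrix (Fin 2) (Fin 2) ℝ) 0 1 with hb
  set c := (B : Matrix (Fin 2) (Fin 2) ℝ) 1 0 with hc
  set d := (B : Matrix (Fin 2) (Fin 2) ℝ) 1 1 with hd
  have hdet : a * d - b * c = 1 := by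
    have h1 := B.det_coe
    rw [Matrix.det_fin_two] at h1
    exact h1
  set z : ℂ := ⟨(a - d) / 2, (b + c) / 2⟩ with hz
  have hx : ‖z‖ * Real.cos (Complex.arg z) = (a - d) / 2 := Complex.norm_mul_cos_arg z
  have hy : ‖z‖ * Real.sin (Complex.arg z) = (b + c) / 2 := Complex.norm_mul_sin_arg z
  have hρ2 : ‖z‖ ^ 2 = ((a - d) / 2) ^ 2 + ((b + c) / 2) ^ 2 := by
    rw [Complex.sq_norm, Complex.normSq_apply]
    ring
  have hC : cos (π / n) = (a + d) / 2 := by rw [htr]; ring
  set h := (c - b) / 2 with hh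
  have hh0 : 0 < h := by rw [hh]; linarith
  have H : cos (π / n) ^ 2 + h ^ 2 - ‖z‖ ^ 2 = 1 := by
    rw [hC, hρ2, hh]
    linear_combination hdet
  rcases (norm_nonneg z).lt_or_eq with hρ | hρ
  · obtain ⟨u, hu⟩ := lift_exists hn H hS hρ hh0 (Complex.arg z)
    refine ⟨u, ?_⟩
    have e : BB (cos (π / n)) h ‖z‖ H (Complex.arg z) = B := by
      apply Subtype.ext
      show !![_, _; _, _] = (B : Matrix (Fin 2) (Fin 2) ℝ)
      rw [hx, hy, hC]
      ext i j
      fin_cases i <;> fin_cases j
      · show (a + d) / 2 + (a - d) / 2 = a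
        ring
      · show -h + (b + c) / 2 = b
        rw [hh]; ring
      · show h + (b + c) / 2 = c
        rw [hh]; ring
      · show (a + d) / 2 - (a - d) / 2 = d
        ring
    rw [e] at hu
    exact hu
  · rw [← hρ, zero_mul] at hx hy
    rw [← hρ] at H
    have hSh : h = sin (π / n) := by
      have h1 := Real.sin_sq_add_cos_sq (π / n)
      have h2 : h ^ 2 = sin (π / n) ^ 2 := by linear_combination H - h1
      exact (sq_eq_sq₀ hh0.le hS.le).1 h2
    refine ⟨1, ?_⟩
    have m3 : (rt n, rotS (Real.pi / n)) ∈ Lp := by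
      have h4 := lifts_rot (Real.pi / n)
      have h5 : Real.pi / n / Real.pi = (n : ℝ)⁻¹ := by
        have := Real.pi_ne_zero
        field_simp
      rw [h5] at h4
      exact h4
    have e : rotS (π / n) = B := by
      apply Subtype.ext
      show rot (π / n) = (B : Matrix (Fin 2) (Fin 2) ℝ)
      rw [rot]
      ext i j
      fin_cases i <;> fin_cases j
      · show cos (π / n) = a
        rw [hC]; linarith
      · show - sin (π / n) = b
        rw [← hSh, hh]; linarith
      · show sin (π / n) = c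
        rw [← hSh, hh]; linarith
      · show cos (π / n) = d
        rw [hC]; linarith
    rw [e] at m3
    simpa using m3

end Pool.Agent.L7h61.Pm
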